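import Pool.Agent.W580.SH.StmB

set_option autoImplicit false
set_option linter.all false

namespace Pool.Agent.W918.SH

open Finset Pool.Agent.W580.SH

theorem min (h1 : S_SEP) (h2 : S_BOUND) : S_MIN := by
  intro R _ _ I A O θ hB J hJI hSt
  have key : ∀ l ∈ J, ∃ j ∈ J, ∃ k ∈ J, 2 / 3 ≤ θ + O l ∧ O j + O k ≤ O l + θ := by
    intro l hl
    obtain ⟨u, v, hP⟩ := hSt.2 l hl
    obtain ⟨j, hj, hjl, hne⟩ := hP.2 0 1 (by decide)
    obtain ⟨k, hk, hkl, hkj, e, g, he, hg, σ, hpr⟩ := h1 R J A hB.bin l u v hP j hj hjl ⟨0, 1, hne⟩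
    have := h2 R I A O θ hB l j k e g (u ∘ σ) (v ∘ σ) (hJI hl) (hJI hj) (hJI hk) he hg hpr
    exact ⟨j, hj, k, hk, this.1, this.2.1⟩
  have hlt := hB.lt
  have hpos : ∀ l ∈ J, 0 < O l := by
    intro l hl
    obtain ⟨j, _, k, _, ha, _⟩ := key l hl
    linarith
  have hth : ∀ l ∈ J, θ ≤ O l := by
    intro l hl
    rcases hB.Oth l (hJI hl) with h | h
    · have := hpos l hl
      linarith
    · exact h
  obtain ⟨l, hl, hmin⟩ := Finset.exists_min_image J O hSt.1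
  obtain ⟨j, hj, k, hk, ha, hb⟩ := key l hl
  have e1 := hmin j hj
  have e2 := hmin k hk
  have e3 := hth l hl
  have e4 : O l = θ := le_antisymm (by linarith) e3
  exact ⟨⟨l, hl, e4⟩, hpos, by linarith⟩

theorem one (h1 : S_SEP) (h2 : S_BOUND) : S_ONE := by
  intro R _ _ I A O θ hB J hJI l hl hOl u v hP j hj hjl hne
  obtain ⟨k, hk, hkl, hkj, e, g, he, hg, σ, hpr⟩ := h1 R J A hB.bin l u v hP j hj hjl hne
  obtain ⟨_, _, _, _, ht⟩ := h2 R I A O θ hB l j k e g (u ∘ σ) (v ∘ σ) (hJI hl) (hJI hj) (hJI hk) he hg hpr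
  obtain ⟨hOj, _, he1, _⟩ := ht hOl
  obtain ⟨_, p0, _, p1, _, p2, _⟩ := hpr
  simp only [Function.comp_apply] at p0 p1 p2
  rw [he1] at p0 p1 p2
  refine ⟨hOj, σ 1, p1, fun i' hi' => ?_⟩
  obtain ⟨x, rfl⟩ := σ.surjective i'
  have hx : x ≠ 1 := fun h => hi' (by rw [h])
  have hx2 : x = 0 ∨ x = 2 := by
    have : ∀ x : Fin 3, x ≠ 1 → x = 0 ∨ x = 2 := by decide
    exact this x hx
  rcases hx2 with rfl | rfl
  · rw [p0]; norm_num
  · rw [p2]; norm_num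

end Pool.Agent.W918.SH
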