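import Pool.Agent.W836.SH.Stm

set_option autoImplicit false
set_option linter.all false

open scoped Classical

namespace Pool.Agent.W918.SH.Base

open Pool.Agent.W836.SH

noncomputable section

variable {ι : Type}

theorem res_in {I : Finset ι} {v : ι → ℝ} {i : ι} (h : i ∈ I) : res I v i = v i := by
  simp [res, h]

theorem int_pr {R I : Finset ι} {V : Finset (ι → ℝ)} (h : R ⊆ I) (hV : IntOn R V) :
    IntOn R (pr I V) := by
  intro v hv i hi
  unfold pr at hv
  obtain ⟨w, hw, rfl⟩ := Finset.mem_image.1 hv
  rw [res_in (h hi)]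
  exact hV w hw i hi

theorem half_pr {H I : Finset ι} {V : Finset (ι → ℝ)} (h : H ⊆ I) (hV : HalfOn H V) :
    HalfOn H (pr I V) := by
  intro v hv i hi
  unfold pr at hv
  obtain ⟨w, hw, rfl⟩ := Finset.mem_image.1 hv
  rw [res_in (h hi)]
  exact hV w hw i hi

theorem supp_pr {I : Finset ι} {V : Finset (ι → ℝ)} : SuppOn I (pr I V) := by
  intro v hv i hi
  unfold pr at hv
  obtain ⟨w, hw, rfl⟩ := Finset.mem_image.1 hv
  simp [res, hi]

theorem mem_sy {V : Finset (ι → ℝ)} {v : ι → ℝ} (h : v ∈ V ∪ V.image (fun v => -v)) :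
    v ∈ V ∨ -v ∈ V := by
  rcases Finset.mem_union.1 h with h | h
  · exact Or.inl h
  · obtain ⟨w, hw, rfl⟩ := Finset.mem_image.1 h
    right
    simpa using hw

theorem sys_sy (h5 : S_TSPR) {R H : Finset ι} {V : Finset (ι → ℝ)} (hd : Disjoint R H)
    (hT : TS V) (hI : IntOn R V) (hH : HalfOn H V) (hS : SuppOn (R ∪ H) V) (s : ι) :
    SYS R H (V ∪ V.image (fun v => -v)) := by
  refine ⟨hd, (h5 ι V R s hT).2.2, ?_, ?_, ?_, ?_⟩
  · intro v hv
    rcases mem_sy hv with h | h
    · exact Finset.mem_union_right _ (Finset.mem_image_of_mem _ h)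
    · exact Finset.mem_union_left _ h
  · intro v hv i hi
    rcases mem_sy hv with h | h
    · exact hI v h i hi
    · have := hI (-v) h i hi
      simp only [Pi.neg_apply] at this
      rcases this with h0 | h0 | h0
      · left; linarith
      · right; right; linarith
      · right; left; linarith
  · intro v hv i hi
    rcases mem_sy hv with h | h
    · exact hH v h i hi
    · have := hH (-v) h i hi
      simp only [Pi.neg_apply, hf] at this
      rcases this with h0 | h0
      · right; linarith
      · left; linarith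
  · intro v hv i hi
    rcases mem_sy hv with h | h
    · exact hS v h i hi
    · have := hS (-v) h i hi
      simp only [Pi.neg_apply] at this
      linarith

theorem main (h1 : S_B) (h2 : S_BONE) (h3 : S_HELLER) (h4 : S_CNT) (h5 : S_TSPR) : S_BASE := by
  intro ι R
  suffices h : ∀ (n : ℕ) (H : Finset ι) (V : Finset (ι → ℝ)), H.card = n → Disjoint R H →
      TS V → IntOn R V → HalfOn H V → SuppOn (R ∪ H) V →
      V.card ≤ (R.card + H.card) ^ 2 + (R.card + H.card) + 1 from
    fun H V => h H.card H V rfl
  intro n
  induction n with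
  | zero =>
    intro H V hn hd hT hI hH hS
    rw [Finset.card_eq_zero] at hn
    subst hn
    rw [Finset.union_empty] at hS
    simpa using h3 ι R V hT hI hS
  | succ n ih =>
    intro H V hn hd hT hI hH hS
    obtain ⟨s0, hs0⟩ : H.Nonempty := by
      rw [← Finset.card_pos, hn]
      omega
    have hsys := sys_sy h5 hd hT hI hH hS s0
    set V' := V ∪ V.image (fun v => -v) with hV'
    have hcard : V.card ≤ V'.card := Finset.card_le_card Finset.subset_union_left
    obtain ⟨_, hT', hSy', hI', hH', hS'⟩ := hsys
    have hcnt : ∀ s ∈ H, V'.card ≤ (pr ((R ∪ H).erase s) V').card + (XX s ((R ∪ H).erase s) V').card :=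
      fun s hs => h4 ι V' (R ∪ H) s (1 / 2) (-(1 / 2)) (Finset.mem_union_right _ hs) hS'
        (fun v hv => hH' v hv s hs)
    have hIH : ∀ s ∈ H, (pr ((R ∪ H).erase s) V').card ≤
        (R.card + n) ^ 2 + (R.card + n) + 1 := by
      intro s hs
      have hsR : s ∉ R := fun h => Finset.disjoint_left.1 hd h hs
      have he : (R ∪ H).erase s = R ∪ H.erase s := by
        rw [Finset.erase_union_distrib, Finset.erase_eq_of_notMem hsR]
      have hc : (H.erase s).card = n := by
        rw [Finset.card_erase_of_mem hs, hn]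
        rfl
      have := ih (H.erase s) (pr ((R ∪ H).erase s) V') hc
        (hd.mono_right (Finset.erase_subset _ _)) (h5 ι V' _ s hT').1
        (int_pr (by rw [he]; exact Finset.subset_union_left) hI')
        (half_pr (by rw [he]; exact Finset.subset_union_right)
          (fun v hv i hi => hH' v hv i (Finset.mem_of_mem_erase hi)))
        (by rw [he]; exact supp_pr)
      rwa [hc] at this
    rcases Nat.eq_zero_or_pos n with h0 | h0
    · subst h0
      obtain ⟨s, rfl⟩ := Finset.card_eq_one.1 hn
      have hs : s ∈ ({s} : Finset ι) := Finset.mem_singleton_self s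
      have hsR : s ∉ R := fun h => Finset.disjoint_left.1 hd h hs
      have he : (R ∪ {s}).erase s = R := by
        rw [Finset.erase_union_distrib, Finset.erase_eq_of_notMem hsR]
        simp
      have a1 := hcnt s hs
      have a2 := hIH s hs
      rw [he] at a1 a2
      have a3 := h2 ι R V' s hsR ⟨hd, hT', hSy', hI', hH', hS'⟩
      rw [Finset.card_singleton]
      nlinarith
    · obtain ⟨s, hs, hx⟩ := h1 ι R H V' ⟨hd, hT', hSy', hI', hH', hS'⟩ (by omega)
      have a1 := hcnt s hs
      have a2 := hIH s hs
      rw [hn] at hx ⊢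
      nlinarith

end

end Pool.Agent.W918.SH.Base
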